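import Pool.Agent.helper91.SI.Spec

/-! # Cycles have no vertex with three neighbours -/

set_option autoImplicit false

namespace Pool.Agent.helper91.SI

open Pool.Agent.helper20.IG (IsIndepDom IsISet iGraph)

theorem CTT (hCYA : CYA_stmt) : CTT_stmt := by
  intro n hn h3
  obtain ⟨x, a, b, c, ha, hb, hc, hab, hac, hbc⟩ := h3
  rw [hCYA n hn] at ha hb hc
  have key : ∀ u v : Fin n, (u.val + 1) % n = (v.val + 1) % n → u = v := by
    intro u v h
    have hu := u.isLt
    have hv := v.isLt
    apply Fin.ext
    rcases Nat.lt_or_ge (u.val + 1) n with h1 | h1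
    · rcases Nat.lt_or_ge (v.val + 1) n with h2 | h2
      · rw [Nat.mod_eq_of_lt h1, Nat.mod_eq_of_lt h2] at h
        omega
      · have e : v.val + 1 = n := by omega
        rw [Nat.mod_eq_of_lt h1, e, Nat.mod_self] at h
        omega
    · rcases Nat.lt_or_ge (v.val + 1) n with h2 | h2
      · have e : u.val + 1 = n := by omega
        rw [Nat.mod_eq_of_lt h2, e, Nat.mod_self] at h
        omega
      · omega
  have key1 : ∀ u v : Fin n, (x.val + 1) % n = u.val → (x.val + 1) % n = v.val → u = v :=
    fun u v h1 h2 => Fin.ext (h1.symm.trans h2)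
  rcases ha with ha | ha <;> rcases hb with hb | hb <;> rcases hc with hc | hc <;>
    first
    | exact hab (key1 _ _ ha hb)
    | exact hac (key1 _ _ ha hc)
    | exact hbc (key1 _ _ hb hc)
    | exact hab (key _ _ (ha.trans hb.symm))
    | exact hac (key _ _ (ha.trans hc.symm))
    | exact hbc (key _ _ (hb.trans hc.symm))

end Pool.Agent.helper91.SI
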