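import Pool.Agent.helper91.SI.Spec2

/-! # No vertex of degree three -/

set_option autoImplicit false

namespace Pool.Agent.helper91.SI

open Pool.Agent.helper20.IG (IsIndepDom IsISet iGraph)

lemma DE2_noc4 {V W : Type} (G : SimpleGraph V) (H : SimpleGraph W) (e : H ≃g G) (h : NoC4 G) : NoC4 H :=
  fun a b c d hab hbc hcd hda hac hbd =>
    h (e a) (e b) (e c) (e d) (e.map_adj_iff.2 hab) (e.map_adj_iff.2 hbc) (e.map_adj_iff.2 hcd)
      (e.map_adj_iff.2 hda) (e.injective.ne hac) (e.injective.ne hbd)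

lemma DE2_three {V W : Type} (G : SimpleGraph V) (H : SimpleGraph W) (e : G ≃g H) (h : Three G) : Three H := by
  obtain ⟨x, a, b, c, ha, hb, hc, hab, hac, hbc⟩ := h
  exact ⟨e x, e a, e b, e c, e.map_adj_iff.2 ha, e.map_adj_iff.2 hb, e.map_adj_iff.2 hc,
    e.injective.ne hab, e.injective.ne hac, e.injective.ne hbc⟩

lemma DE2_cyc7 {V W : Type} (G : SimpleGraph V) (H : SimpleGraph W) (e : G ≃g H) (x : ZMod 7 → V)
    (h : Cyc7 G x) : Cyc7 H (fun k => e (x k)) :=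
  ⟨fun _ _ hab => h.1 (e.injective hab), fun k => e.map_adj_iff.2 (h.2 k)⟩

lemma DE2_p1 {V W : Type} (G : SimpleGraph V) (H : SimpleGraph W) (e : G ≃g H) (h : P1 G) : P1 H := by
  obtain ⟨x, y, hx, hy, h0⟩ := h
  exact ⟨fun k => e (x k), e y, DE2_cyc7 G H e x hx, fun k => e.injective.ne (hy k), e.map_adj_iff.2 h0⟩

lemma DE2_p2 {V W : Type} (G : SimpleGraph V) (H : SimpleGraph W) (e : G ≃g H) (h : P2 G) : P2 H := by
  obtain ⟨x, x', hx, hx', h0, h1, h2, h3, h5⟩ := h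
  exact ⟨fun k => e (x k), fun k => e (x' k), DE2_cyc7 G H e x hx, DE2_cyc7 G H e x' hx',
    congrArg e h0, congrArg e h1, congrArg e h2, congrArg e h3, e.injective.ne h5⟩

theorem DE2 (hIAD : IAD_stmt) (hSAM : SAM_stmt) (hCFL : CFL_stmt) (hTH2 : TH2_stmt) (hPP : PP_stmt) (hPX : PX_stmt) : DE2_stmt := by
  intro V _ G h3 h4 h5 h6 hiso hT
  obtain ⟨φ⟩ := hiso
  have hi4 : NoC4 (iGraph G) := DE2_noc4 G (iGraph G) φ h4
  have hi3 : Three (iGraph G) := DE2_three G (iGraph G) φ.symm hT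
  obtain ⟨X, A, B, C, hA, hB, hC, hAB, hAC, hBC⟩ := hi3
  obtain ⟨s1, v1, hs1, e1⟩ := (hIAD V G X A).1 hA
  obtain ⟨s2, v2, hs2, e2⟩ := (hIAD V G X B).1 hB
  obtain ⟨s3, v3, hs3, e3⟩ := (hIAD V G X C).1 hC
  have key : ∀ (Y Z : {S : Finset V // IsISet G S}) (s v t w : V), Slide G X.1 s v → Slide G X.1 t w →
      Y.1 = insert v (X.1.erase s) → Z.1 = insert w (X.1.erase t) → Y ≠ Z → s ≠ t := by
    intro Y Z s v t w hs ht hY hZ hne hst
    subst hst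
    have hvw := hSAM V G X.1 s v w h3 hs ht
    subst hvw
    exact hne (Subtype.ext (hY.trans hZ.symm))
  have n12 := key A B s1 v1 s2 v2 hs1 hs2 e1 e2 hAB
  have n13 := key A C s1 v1 s3 v3 hs1 hs3 e1 e3 hAC
  have n23 := key B C s2 v2 s3 v3 hs2 hs3 e2 e3 hBC
  have hP1 : P1 G := hTH2 V G X.1 s1 v1 s2 v2 s3 v3 h3 h6 hs1 hs2 hs3 n12 n13 n23
    (hCFL V G X.1 s1 v1 s2 v2 h3 hi4 hs1 hs2 n12) (hCFL V G X.1 s1 v1 s3 v3 h3 hi4 hs1 hs3 n13)
    (hCFL V G X.1 s2 v2 s3 v3 h3 hi4 hs2 hs3 n23)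
  have hP2 : P2 G := hPP V G h3 h4 h5 h6 hi4 (DE2_p1 G (iGraph G) φ.symm hP1)
  exact hPX V G h3 h4 h5 h6 (DE2_p2 G (iGraph G) φ.symm hP2)

end Pool.Agent.helper91.SI
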